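import Pool.Agent.Helper3.TG.GoalsTr

/-!
# Project TG (MP_a41896_nt), packet TG-GENT: genericity
-/

set_option autoImplicit false

open MvPolynomial

namespace Pool.Agent.Helper37.TG.GENT

open WeierstrassCurve
open Pool.Agent.Helper29.BL
open Pool.Agent.Helper3.TG

theorem THh_affine {R : Type} [CommRing R] (W : WeierstrassCurve R) (p q r : R) :
    THh W ![p, 1] ![q, 1] ![r, 1] = TH W p q r := by
  simp only [THh, TH, Matrix.cons_val_zero, Matrix.cons_val_one]
  ring

theorem TH_symm {R : Type} [CommRing R] (W : WeierstrassCurve R) (p q r : R) :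
    TH W p q r = TH W p r q := by
  unfold TH
  ring

theorem split_iff {K Ω σ : Type} [Field K] [Field Ω] [Algebra K Ω] (z : σ → Ω) (b : σ) :
    AlgebraicIndependent K z ↔ AlgebraicIndepOn K z ({b}ᶜ : Set σ) ∧
      Transcendental (Algebra.adjoin K (z '' ({b}ᶜ : Set σ))) (z b) := by
  have h : insert b ({b}ᶜ : Set σ) = Set.univ := by
    ext i
    simp only [Set.mem_insert_iff, Set.mem_compl_iff, Set.mem_singleton_iff, Set.mem_univ, iff_true]
    exact Classical.em _
  rw [← AlgebraicIndepOn.univ, ← h, AlgebraicIndepOn.insert_iff (by simp)]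

theorem t (h : THN) : GENT := by
  intro K _ _ w hw σ _ _ Ω _ _ x y a b hab hx hTH
  have h1 := (split_iff x b).1 hx
  rw [split_iff _ b]
  have himg : (Function.update x b y) '' ({b}ᶜ : Set σ) = x '' ({b}ᶜ : Set σ) :=
    Set.image_congr fun i hi => Function.update_of_ne hi _ _
  have hon : AlgebraicIndepOn K (Function.update x b y) ({b}ᶜ : Set σ) := by
    have e : (fun i : ({b}ᶜ : Set σ) => Function.update x b y i) =
        fun i : ({b}ᶜ : Set σ) => x i := by
      funext i
      exact Function.update_of_ne i.2 _ _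
    have h2 := h1.1
    unfold AlgebraicIndepOn at h2 ⊢
    rw [e]
    exact h2
  refine ⟨hon, ?_⟩
  rw [himg, Function.update_self, ← IntermediateField.transcendental_adjoin_iff]
  have h2 := h1.2
  rw [← IntermediateField.transcendental_adjoin_iff] at h2
  intro hy
  apply h2
  have hxa : x a ∈ IntermediateField.adjoin K (x '' ({b}ᶜ : Set σ)) :=
    IntermediateField.subset_adjoin _ _ ⟨a, hab, rfl⟩
  have h3 := h K w hw Ω (IntermediateField.adjoin K (x '' ({b}ᶜ : Set σ))) ![x a, 1] ![y, 1]
    ![x b, 1] (.inl rfl) (.inl rfl) (.inl rfl)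
    (by rw [THh_affine, TH_symm]; exact hTH)
    (isAlgebraic_algebraMap (⟨x a, hxa⟩ : IntermediateField.adjoin K (x '' ({b}ᶜ : Set σ))))
    hy
  exact h3

end Pool.Agent.Helper37.TG.GENT
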